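import Pool.Agent.Work.MP_ed30a9_ag.Proof

namespace Pool.Agent.Results.MP_ed30a9_ag.Counterexample

open Pool.Agent.Work.MP_ed30a9_ag

/-- The system of surfaces of degree 12 with seven points of multiplicity 6, three of
multiplicity 4 and one of multiplicity 2 is Cremona reduced and satisfies neither the line
condition nor the quadric condition, but it is non-empty and special for every position of the
eleven points (in particular for general points). -/
theorem result :
    CremonaReduced 12 ![6, 6, 6, 6, 6, 6, 6, 4, 4, 4, 2] ∧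
    ¬ LineCondition 12 ![6, 6, 6, 6, 6, 6, 6, 4, 4, 4, 2] ∧
    ¬ QuadricCondition 12 ![6, 6, 6, 6, 6, 6, 6, 4, 4, 4, 2] ∧
    ∀ p : Fin 11 → P3,
      IsNonEmpty 12 ![6, 6, 6, 6, 6, 6, 6, 4, 4, 4, 2] p ∧
      IsSpecial 12 ![6, 6, 6, 6, 6, 6, 6, 4, 4, 4, 2] p := by
  refine ⟨reduced, not_line, not_quadric, fun p => ⟨projDim_nonneg p, ?_⟩⟩
  have := projDim_nonneg p
  unfold IsSpecial
  rw [edim_eq]
  omega

end Pool.Agent.Results.MP_ed30a9_ag.Counterexample
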