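import Pool.Agent.Work.MP_ed30a9_ag.Hedge.Count

/-! Ten points suffice to break the conjecture, with unbounded defect and quadric numbers. -/

set_option autoImplicit false

namespace Pool.Agent.Results.MP_ed30a9_ag.TenPoints

open Pool.Agent.Work.MP_ed30a9_ag

theorem six_choose (x : ℕ) : 6 * ((x + 2).choose 3 : ℤ) = x * (x + 1) * (x + 2) := by
  have := Nat.descFactorial_eq_factorial_mul_choose (x + 2) 3
  simp only [Nat.descFactorial, Nat.factorial] at this
  rw [show x + 2 - 2 = x by omega, show x + 2 - 1 = x + 1 by omega, Nat.sub_zero] at this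
  zify at this
  linarith

theorem six_vdim (d a b c : ℕ) : 6 * vdim d ![a, a, a, a, a, a, a, b, c, c] =
    (d + 1) * (d + 2) * (d + 3) - 7 * (a * (a + 1) * (a + 2)) - b * (b + 1) * (b + 2) -
      2 * (c * (c + 1) * (c + 2)) - 6 := by
  have h1 := six_choose (d + 1)
  have h2 := six_choose a
  have h3 := six_choose b
  have h4 := six_choose c
  simp only [vdim, Fin.sum_univ_succ, Fin.sum_univ_zero, Matrix.cons_val_zero,
    Matrix.cons_val_succ]
  push_cast at h1 ⊢
  linarith

/-- For every `i`, with `N = (i + 1) (i + 4)`, the system of surfaces of degree `2 k` with seven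
points of multiplicity `k`, one of multiplicity `l` and two of multiplicity `n` is Cremona reduced,
meets every line nonnegatively and has all quadric numbers at least `N`, so that it satisfies
neither condition, but for every position of the ten points its dimension exceeds the expected one
by at least `N`. -/
theorem result (i N k l n : ℕ) (m : Fin 10 → ℕ) (hN : N = (i + 1) * (i + 4))
    (hk : k = 17 * i ^ 2 + 89 * i + 78) (hl : l = 15 * i ^ 2 + 79 * i + 70)
    (hn : n = 8 * i ^ 2 + 41 * i + 34) (hM : m = ![k, k, k, k, k, k, k, l, n, n]) :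
    CremonaReduced (2 * k) m ∧ ¬ LineCondition (2 * k) m ∧ ¬ QuadricCondition (2 * k) m ∧
    (∀ a b, m a + m b ≤ 2 * k) ∧
    (∀ I : Finset (Fin 10), I.card = 9 → (N : ℤ) ≤ triple (quadricClass I)
      (sysClass (2 * k) m - quadricClass I) (sysClass (2 * k) m - canClass 10)) ∧
    ∀ p : Fin 10 → P3, IsNonEmpty (2 * k) m p ∧ IsSpecial (2 * k) m p ∧
      edim (2 * k) m + N ≤ projDim (2 * k) m p := by
  have hm : ∀ a, n ≤ m a ∧ m a ≤ k := fun a => by
    rw [hM]
    fin_cases a <;> simp <;> omega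
  have hq : ∀ I : Finset (Fin 10), I.card = 9 → (N : ℤ) ≤ triple (quadricClass I)
      (sysClass (2 * k) m - quadricClass I) (sysClass (2 * k) m - canClass 10) := fun I hI => by
    obtain ⟨a, ha⟩ := Finset.card_eq_one.1 (show Iᶜ.card = 1 by simp [Finset.card_compl, hI])
    have h3 := (hm a).1
    have h4 : ∑ b, ((m b : ℤ) - 1) * (m b + 2) =
        7 * ((k - 1) * (k + 2)) + (l - 1) * (l + 2) + 2 * ((n - 1) * (n + 2)) := by
      simp only [hM, Fin.sum_univ_succ, Fin.sum_univ_zero, Matrix.cons_val_zero,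
        Matrix.cons_val_succ]
      ring
    rw [← Finset.sum_add_sum_compl I, ha, Finset.sum_singleton] at h4
    have h5 : triple (quadricClass I) (sysClass (2 * k) m - quadricClass I)
        (sysClass (2 * k) m - canClass 10) =
        2 * (2 * k - 2) * (2 * k + 4) - ∑ b ∈ I, ((m b : ℤ) - 1) * (m b + 2) := by
      rw [← Finset.sum_ite_mem_eq, sub_eq_add_neg _ (∑ b, _), ← Finset.sum_neg_distrib]
      simp only [triple, quadricClass, sysClass, canClass, Prod.fst_sub, Prod.snd_sub, Pi.sub_apply]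
      refine congrArg₂ (· + ·) (by push_cast; ring) (Finset.sum_congr rfl fun b _ => ?_)
      split_ifs <;> ring
    have h6 : ((n : ℤ) - 1) * (n + 2) ≤ ((m a : ℤ) - 1) * (m a + 2) := by
      zify at h3
      nlinarith [Nat.cast_nonneg (α := ℤ) n]
    have h7 : 2 * (2 * (k : ℤ) - 2) * (2 * k + 4) =
        7 * ((k - 1) * (k + 2)) + (l - 1) * (l + 2) + (n - 1) * (n + 2) + N := by
      rw [hk, hl, hn, hN]
      push_cast
      ring
    linarith
  refine ⟨fun J hJ => ?_, ?_, fun ⟨I, hI, h⟩ => ?_, fun a b => ?_, hq, fun p => ?_⟩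
  · refine (Finset.sum_le_card_nsmul J _ k fun a _ => (hm a).2).trans ?_
    rw [hJ, smul_eq_mul]
    omega
  · rintro ⟨a, b, -, h⟩
    have := (hm a).2
    have := (hm b).2
    omega
  · have := hq I hI
    omega
  · have := (hm a).2
    have := (hm b).2
    omega
  · subst hM
    obtain ⟨k, rfl⟩ : ∃ x, k = 2 + x := ⟨k - 2, by omega⟩
    obtain ⟨l, rfl⟩ : ∃ x, l = 2 + x := ⟨l - 2, by omega⟩
    obtain ⟨n, rfl⟩ : ∃ x, n = 1 + x := ⟨n - 1, by omega⟩
    have h3 := (vdim_le (2 * k) ![k, k, k, k, k, k, k, l, n, n] p).trans (projDim_add (e := 4)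
      (n := ![2, 2, 2, 2, 2, 2, 2, 2, 1, 1]) p (le_trans (by decide) (vdim_le _ _ p)))
    rw [show 4 + 2 * k = 2 * (2 + k) by ring, show ![2, 2, 2, 2, 2, 2, 2, 2, 1, 1] +
      ![k, k, k, k, k, k, k, l, n, n] = ![2 + k, 2 + k, 2 + k, 2 + k, 2 + k, 2 + k, 2 + k, 2 + l,
        1 + n, 1 + n] by simp] at h3
    have hk' : (k : ℤ) = 17 * i ^ 2 + 89 * i + 76 := by zify at hk; linarith
    have hl' : (l : ℤ) = 15 * i ^ 2 + 79 * i + 68 := by zify at hl; linarith
    have hn' : (n : ℤ) = 8 * i ^ 2 + 41 * i + 33 := by zify at hn; linarith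
    have h4 := six_vdim (2 * k) k l n
    have h5 := six_vdim (2 * (2 + k)) (2 + k) (2 + l) (1 + n)
    unfold IsNonEmpty IsSpecial edim
    generalize projDim (2 * (2 + k)) _ p = D at h3 ⊢
    generalize vdim (2 * (2 + k)) _ = V at h5 ⊢
    generalize vdim (2 * k) _ = W at h3 h4
    have h6 : 6 * V = 49908 + 170886 * i + 227696 * i ^ 2 + 148680 * i ^ 3 + 49566 * i ^ 4 +
        8094 * i ^ 5 + 514 * i ^ 6 := by
      rw [h5]
      push_cast
      rw [hk', hl', hn']
      ring
    have h7 : 6 * W = 6 * V + 6 * N := by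
      rw [h4, h5, hN]
      push_cast
      rw [hk', hl', hn']
      ring
    have h8 : 0 ≤ 6 * V := by
      rw [h6]
      positivity
    have h9 : 0 < N := by
      rw [hN]
      positivity
    omega

end Pool.Agent.Results.MP_ed30a9_ag.TenPoints
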